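import Pool.Agent.Work.MP_2738db_nt_Y.Interface5

set_option autoImplicit false

namespace Pool.Agent.Work.MP_2738db_nt_Y.helper96

open NumberField Pool.Agent.Work.MP_2738db_nt_Y

/-- The cyclotomic fields of any conductor at least 3. -/
theorem cyd_aux (n : ℕ) (hn : 3 ≤ n) :
    ∃ (K : Type) (_ : Field K) (_ : NumberField K) (ζ : 𝓞 K) (τ : 𝓞 K ≃+* 𝓞 K),
      IsPrimitiveRoot ζ n ∧ IsConjugation K τ ∧ (Module.finrank ℚ K : ℝ) ≤ n ∧
      Real.log |(discr K : ℝ)| ≤ (n : ℝ) ^ 2 := by
  have hne : NeZero n := ⟨by omega⟩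
  have hne' : NeZero ((n : ℕ) : ℚ) := ⟨by exact_mod_cast hne.out⟩
  have hcyc : IsCyclotomicExtension {n} ℚ (CyclotomicField n ℚ) :=
    CyclotomicField.isCyclotomicExtension n ℚ
  have hCM : IsCMField (CyclotomicField n ℚ) :=
    IsCyclotomicExtension.Rat.isCMField (CyclotomicField n ℚ) (S := {n}) ⟨n, rfl, by omega⟩
  have hζ := IsCyclotomicExtension.zeta_spec n ℚ (CyclotomicField n ℚ)
  refine ⟨CyclotomicField n ℚ, inferInstance, inferInstance, hζ.toInteger,
    RingOfIntegers.mapRingEquiv (IsCMField.complexConj (CyclotomicField n ℚ)).toRingEquiv,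
    hζ.toInteger_isPrimitiveRoot, ?_, ?_, ?_⟩
  · intro φ z
    exact IsCMField.complexEmbedding_complexConj (CyclotomicField n ℚ) φ (z : CyclotomicField n ℚ)
  · rw [IsCyclotomicExtension.Rat.finrank n (CyclotomicField n ℚ)]
    exact_mod_cast Nat.totient_le n
  · have h1 := IsCyclotomicExtension.Rat.natAbs_discr n (CyclotomicField n ℚ)
    have h2 : (discr (CyclotomicField n ℚ)).natAbs ≤ n ^ n := by
      rw [h1]
      refine (Nat.div_le_self _ _).trans ?_
      exact Nat.pow_le_pow_right (by omega) (Nat.totient_le n)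
    have h3 : |(discr (CyclotomicField n ℚ) : ℝ)| ≤ (n : ℝ) ^ n := by
      have h4 : |(discr (CyclotomicField n ℚ) : ℝ)|
          = ((discr (CyclotomicField n ℚ)).natAbs : ℝ) := by
        rw [Nat.cast_natAbs, Int.cast_abs]
      rw [h4]
      exact_mod_cast h2
    have hd : (0 : ℝ) < |(discr (CyclotomicField n ℚ) : ℝ)| := by
      rw [abs_pos]
      exact_mod_cast NumberField.discr_ne_zero (CyclotomicField n ℚ)
    calc Real.log |(discr (CyclotomicField n ℚ) : ℝ)| ≤ Real.log ((n : ℝ) ^ n) :=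
          Real.log_le_log hd h3
      _ = n * Real.log n := by rw [Real.log_pow]
      _ ≤ n * n := by
          apply mul_le_mul_of_nonneg_left _ (Nat.cast_nonneg n)
          have h5 : Real.log n ≤ n - 1 := Real.log_le_sub_one_of_pos (by positivity)
          linarith
      _ = (n : ℝ) ^ 2 := by ring

theorem cyd : Stmt_Cyd := by
  rintro n (⟨-, hn⟩ | hn | hn)
  · exact cyd_aux n hn
  · exact cyd_aux n (by omega)
  · exact cyd_aux n (by omega)

end Pool.Agent.Work.MP_2738db_nt_Y.helper96
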